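import Pool.Agent.Work.MP_4bfeea_al.All.Sln

/-!
# MP_4bfeea_al : the centre of `V^κ(g)` is never the `p`-centre
-/

namespace Pool.Agent.Results.MP_4bfeea_al.EveryLevel

open MP4bfeeaAll

universe u v

/-- Let `p` be an odd prime and `K` a field of characteristic `p`.

(1) Let `L ≠ 0` be a Lie algebra over `K` with trivial centre, with a `p`-power map `pm` and an
invariant symmetric form `B` (non-degenerate: it has dual families) for which the Casimir element
acts on `L` by `2 h` (so that `-h` is the critical level). Then for EVERY level `κ ≠ -h` the vacuum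
module `V^κ` of the affine Lie algebra contains a vector killed by all `x_n`, `n ≥ 0`, which is not
in the `p`-centre `𝒵₀'(ĝ)|0⟩`; and for every vertex algebra structure on `V^κ` with vacuum `|0⟩` and
`Y(x_{-1}|0⟩, z) = ∑ₙ x_n z^{-n-1}` the `p`-centre is strictly contained in the centre.

(2) This applies to `sl_n(K)` for all `n ≥ 2` not divisible by `p`, with the trace form, the matrix
`p`-th power and `h = n`. -/
theorem result (p : ℕ) (hp : p.Prime) (hp2 : p ≠ 2) (K : Type u) [Field K] [CharP K p] :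
    (∀ (L : Type v) [LieRing L] [LieAlgebra K L] [Nontrivial L] (B : InvForm K L) (pm : L → L)
      (h : K), IsPMap p pm → (∀ x : L, (∀ y : L, ⁅x, y⁆ = 0) → x = 0) → IsDualCoxeter B h →
      ∀ κ : K, κ ≠ -h →
        (∃ v : V B κ, (∀ (n : ℤ) (x : L), 0 ≤ n → act B (xm B n x) v = 0) ∧
          v ∉ pCentre B p pm κ) ∧
        ∀ A : VertexAlgebra K (V B κ), IsAffine A → pCentre B p pm κ ⊂ A.centre) ∧
    ∀ n : ℕ, 2 ≤ n → (n : K) ≠ 0 → ∃ pm : sl K n → sl K n,
      (∀ x, (pm x).1 = x.1 ^ p) ∧ IsPMap p pm ∧ IsDualCoxeter (trForm K n) (n : K) ∧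
      ∀ κ : K, κ ≠ -(n : K) →
        (∃ v : V (trForm K n) κ,
          (∀ (m : ℤ) (x : sl K n), 0 ≤ m → act (trForm K n) (xm (trForm K n) m x) v = 0) ∧
            v ∉ pCentre (trForm K n) p pm κ) ∧
        ∀ A : VertexAlgebra K (V (trForm K n) κ), IsAffine A →
          pCentre (trForm K n) p pm κ ⊂ A.centre := by
  refine ⟨?_, ?_⟩
  · intro L _ _ _ B pm h hpm hcent hh κ hκ
    exact ⟨exists_central hp hp2 hpm hcent hh hκ,
      fun A hA => pCentre_lt_centre hp hp2 hpm hcent hh hκ hA⟩
  · intro n hn hn0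
    have : NeZero n := ⟨by omega⟩
    have : Nontrivial (sl K n) := sl_nontrivial hn
    obtain ⟨pm, h1, h2⟩ := exists_pm (K := K) (n := n) hp hp2
    refine ⟨pm, h1, h2, sl_isDualCoxeter hn0, fun κ hκ => ⟨?_, fun A hA => ?_⟩⟩
    · exact exists_central hp hp2 h2 (sl_center hp hp2 hn0) (sl_isDualCoxeter hn0) hκ
    · exact pCentre_lt_centre hp hp2 h2 (sl_center hp hp2 hn0) (sl_isDualCoxeter hn0) hκ hA

end Pool.Agent.Results.MP_4bfeea_al.EveryLevel
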